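import Mathlib

/-!
# Logarithms of `z - p` on compact plane sets

`HasLog L F`: `F` has a continuous logarithm on `L`.
(The lemmas `log`, `preconn_out`, `int_const`, `no_log_circle` are those of `Helper77_BS`.)
-/

set_option autoImplicit false

namespace Pool.Agent.ALLC.Comp

open Function Filter Topology Set

theorem sc_univ {E : Type*} [AddCommGroup E] [Module ℝ E] [TopologicalSpace E]
    [ContinuousAdd E] [ContinuousSMul ℝ E] : IsSimplyConnected (univ : Set E) := by
  have : ContractibleSpace (univ : Set E) := Convex.contractibleSpace convex_univ univ_nonempty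
  exact SimplyConnectedSpace.ofContractible _

/-- continuous functions without zeros on the plane have logarithms -/
theorem log_exists (F : ℂ → ℂ) (hF : Continuous F) (h0 : ∀ z, F z ≠ 0) :
    ∃ g : ℂ → ℂ, Continuous g ∧ ∀ z, Complex.exp (g z) = F z := by
  obtain ⟨f, hf, he⟩ := Complex.exists_continuousOn_eqOn_exp_comp (X := ℂ) (U := univ) sc_univ
    isOpen_univ hF.continuousOn (by rintro ⟨z, _, hz⟩; exact h0 z hz)
  exact ⟨f, continuousOn_univ.mp hf, fun z => he (mem_univ z)⟩

/-- the outside of a disc is connected -/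
theorem preconn_out {R : ℝ} (hR : 0 < R) : IsPreconnected {z : ℂ | R < ‖z‖} := by
  have h : IsPreconnected {z : ℂ | Real.log R < z.re} := (convex_halfSpace_re_gt _).isPreconnected
  have h2 := h.image Complex.exp Complex.continuous_exp.continuousOn
  convert h2 using 1
  ext w
  constructor
  · intro hw
    have hw0 : w ≠ 0 := by
      rintro rfl
      simp only [mem_ofPred_eq, norm_zero] at hw
      linarith
    refine ⟨Complex.log w, ?_, Complex.exp_log hw0⟩
    simp only [mem_ofPred_eq, Complex.log_re]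
    exact Real.log_lt_log hR hw
  · rintro ⟨z, hz, rfl⟩
    simp only [mem_ofPred_eq, Complex.norm_exp]
    simp only [mem_ofPred_eq] at hz
    calc R = Real.exp (Real.log R) := (Real.exp_log hR).symm
      _ < Real.exp z.re := Real.exp_lt_exp.2 hz

/-- an integer valued continuous function on a preconnected set is constant -/
theorem int_const {s : Set ℂ} (hs : IsPreconnected s) {f : ℂ → ℂ} (hf : ContinuousOn f s)
    (hi : ∀ z ∈ s, ∃ n : ℤ, f z = n) : ∃ n : ℤ, ∀ z ∈ s, f z = n := by
  rcases s.eq_empty_or_nonempty with rfl | ⟨z₀, hz₀⟩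
  · exact ⟨0, by simp⟩
  obtain ⟨n, hn⟩ := hi z₀ hz₀
  refine ⟨n, fun z hz => ?_⟩
  choose! m hm using hi
  have hc : ContinuousOn (fun z => ((m z : ℤ) : ℝ)) s := by
    have h1 : ContinuousOn (fun z => (f z).re) s := Complex.continuous_re.comp_continuousOn hf
    refine h1.congr fun w hw => ?_
    simp only
    rw [hm w hw]
    simp
  have hc' : ContinuousOn m s :=
    (Int.isClosedEmbedding_coe_real.isInducing.continuousOn_iff).2 hc
  have h2 : m z = m z₀ := hs.constant hc' hz hz₀
  rw [hm z hz, h2, ← hm z₀ hz₀, hn]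

/-- no logarithm of `t ^ m` on a big circle -/
theorem no_log_circle {z : ℂ} {R : ℝ} (hR : 0 < R) {m : ℤ} (hm : m ≠ 0) {g : ℂ → ℂ}
    (hg : ContinuousOn g (Metric.sphere z R))
    (he : ∀ x ∈ Metric.sphere z R, Complex.exp (g x) = (x - z) ^ m) : False := by
  set c : ℝ → ℂ := fun θ => circleMap z R θ with hc
  have hcc : Continuous c := continuous_circleMap z R
  have hcm : ∀ θ, c θ ∈ Metric.sphere z R := fun θ => circleMap_mem_sphere z hR.le θ
  set L : ℝ → ℂ := fun θ => g (c θ) - m * (θ * Complex.I) with hL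
  have hLc : Continuous L := by
    have : Continuous (fun θ => g (c θ)) := hg.comp_continuous hcc hcm
    exact this.sub (by fun_prop)
  have hLe : ∀ θ, Complex.exp (L θ) = (R:ℂ) ^ m := by
    intro θ
    simp only [hL, Complex.exp_sub]
    rw [he _ (hcm θ)]
    have h1 : c θ - z = R * Complex.exp (θ * Complex.I) := by
      simp only [hc, circleMap]; ring
    rw [h1, mul_zpow, ← Complex.exp_int_mul]
    exact mul_div_cancel_right₀ _ (Complex.exp_ne_zero _)
  -- the integer valued function
  have hR0 : (R:ℂ) ≠ 0 := by exact_mod_cast hR.ne'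
  have hconst : ∀ θ, L θ = L 0 := by
    have hd : ∀ θ, ∃ n : ℤ, L θ - L 0 = n * (2 * Real.pi * Complex.I) := by
      intro θ
      have : Complex.exp (L θ) = Complex.exp (L 0) := by rw [hLe, hLe]
      obtain ⟨n, hn⟩ := Complex.exp_eq_exp_iff_exists_int.1 this
      exact ⟨n, by rw [hn]; ring⟩
    choose n hn using hd
    have hpi : (2 * Real.pi * Complex.I : ℂ) ≠ 0 := Complex.two_pi_I_ne_zero
    have hcn : Continuous (fun θ => ((n θ : ℤ) : ℝ)) := by
      have h1 : Continuous (fun θ => ((L θ - L 0) / (2 * Real.pi * Complex.I)).re) := by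
        fun_prop
      refine h1.congr fun θ => ?_
      rw [hn θ, mul_div_cancel_right₀ _ hpi]
      simp
    have hcn' : Continuous n := by
      have : IsClosedEmbedding ((↑) : ℤ → ℝ) := Int.isClosedEmbedding_coe_real
      exact this.isInducing.continuous_iff.2 hcn
    intro θ
    have h2 : n θ = n 0 := by
      have := PreconnectedSpace.constant (α := ℝ) inferInstance hcn' (x := θ) (y := 0)
      exact this
    have h3 := hn θ
    have h4 := hn 0
    rw [h2, ← h4, sub_self] at h3
    exact sub_eq_zero.1 h3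
  have h5 := hconst (2 * Real.pi)
  simp only [hL] at h5
  have h6 : c (2 * Real.pi) = c 0 := by
    simp [hc, circleMap]
  rw [h6] at h5
  have h7 : (m:ℂ) * (((2 * Real.pi : ℝ) : ℂ) * Complex.I) = 0 := by
    have : (m:ℂ) * (((0:ℝ):ℂ) * Complex.I) = 0 := by simp
    rw [this] at h5
    linear_combination (-1 : ℂ) * h5
  rw [mul_eq_zero] at h7
  rcases h7 with h7 | h7
  · exact hm (by exact_mod_cast h7)
  · have : (2 * Real.pi * Complex.I : ℂ) ≠ 0 := Complex.two_pi_I_ne_zero
    apply this
    push_cast at h7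
    exact h7

/-! ### Logarithms on sets -/

/-- `F` has a continuous logarithm on `L` -/
def HasLog (L : Set ℂ) (F : ℂ → ℂ) : Prop :=
  ∃ g : ℂ → ℂ, ContinuousOn g L ∧ ∀ z ∈ L, Complex.exp (g z) = F z

theorem HasLog.mul {L : Set ℂ} {F G : ℂ → ℂ} (hF : HasLog L F) (hG : HasLog L G) :
    HasLog L (fun z => F z * G z) := by
  obtain ⟨f, hf, hf'⟩ := hF
  obtain ⟨g, hg, hg'⟩ := hG
  exact ⟨fun z => f z + g z, hf.add hg, fun z hz => by rw [Complex.exp_add, hf' z hz, hg' z hz]⟩

theorem HasLog.congr {L : Set ℂ} {F G : ℂ → ℂ} (hF : HasLog L F) (h : ∀ z ∈ L, G z = F z) :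
    HasLog L G := by
  obtain ⟨f, hf, hf'⟩ := hF
  exact ⟨f, hf, fun z hz => by rw [hf' z hz, h z hz]⟩

theorem HasLog.const {L : Set ℂ} {c : ℂ} (hc : c ≠ 0) : HasLog L (fun _ => c) :=
  ⟨fun _ => Complex.log c, continuousOn_const, fun _ _ => Complex.exp_log hc⟩

theorem HasLog.one_sub {L : Set ℂ} {h : ℂ → ℂ} (hc : ContinuousOn h L) (hn : ∀ z ∈ L, ‖h z‖ < 1) :
    HasLog L (fun z => 1 - h z) := by
  have hs : ∀ z ∈ L, 1 - h z ∈ Complex.slitPlane := by
    intro z hz
    rw [sub_eq_add_neg]
    exact Complex.mem_slitPlane_of_norm_lt_one (by rw [norm_neg]; exact hn z hz)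
  refine ⟨fun z => Complex.log (1 - h z), ?_, fun z hz =>
    Complex.exp_log (Complex.slitPlane_ne_zero (hs z hz))⟩
  exact (continuousOn_const.sub hc).clog hs

/-- If `p` can be joined with points of arbitrarily large norm in the complement of the compact
set `L`, then `z - p` has a continuous logarithm on `L`. -/
theorem hasLog_of_unbounded {L : Set ℂ} (hL : IsCompact L) {p : ℂ}
    (h : ∀ R : ℝ, ∃ S : Set ℂ, IsPreconnected S ∧ S ⊆ Lᶜ ∧ p ∈ S ∧ ∃ z ∈ S, R < ‖z‖) :
    HasLog L (fun z => z - p) := by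
  obtain ⟨R, hR⟩ := hL.isBounded.exists_norm_le
  obtain ⟨S, hS, hSL, hp, p', hp', hR''⟩ := h (max R 0)
  have hR' : R < ‖p'‖ := (le_max_left _ _).trans_lt hR''
  have hne : ∀ s ∈ Lᶜ, ∀ z ∈ L, z - s ≠ 0 := by
    intro s hs z hz h
    rw [sub_eq_zero] at h
    exact hs (h ▸ hz)
  -- the quotient has a logarithm
  have h1 : HasLog L (fun z => (z - p) / (z - p')) := by
    have key := hS.induction₂' (fun x y => HasLog L (fun z => (z - x) / (z - y))) ?_ ?_ hp hp'
    · exact key
    · intro x hx
      have hd : ∀ᶠ y in 𝓝[S] x, ∀ z ∈ L, ‖y - x‖ < ‖z - x‖ ∧ ‖y - x‖ < ‖z - y‖ := by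
        have hopen : IsOpen Lᶜ := hL.isClosed.isOpen_compl
        obtain ⟨δ, hδ, hb⟩ := Metric.isOpen_iff.1 hopen x (hSL hx)
        have : Metric.ball x (δ / 2) ∈ 𝓝 x := Metric.ball_mem_nhds x (by linarith)
        refine Filter.mem_of_superset (mem_nhdsWithin_of_mem_nhds this) fun y hy z hz => ?_
        have hz1 : δ ≤ ‖z - x‖ := by
          by_contra hcon
          push Not at hcon
          exact hb (by rw [Metric.mem_ball, dist_eq_norm]; exact hcon) hz
        have hy1 : ‖y - x‖ < δ / 2 := by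
          rw [← dist_eq_norm]; exact hy
        have h3 : ‖z - x‖ ≤ ‖z - y‖ + ‖y - x‖ := by
          have := norm_add_le (z - y) (y - x)
          simpa using this
        exact ⟨by linarith, by linarith⟩
      filter_upwards [hd, self_mem_nhdsWithin] with y hy hyS
      constructor
      · have h2 : HasLog L (fun z => 1 - (x - y) / (z - y)) := by
          refine HasLog.one_sub (continuousOn_const.div (continuousOn_id.sub continuousOn_const)
            fun z hz => hne y (hSL hyS) z hz) fun z hz => ?_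
          rw [norm_div, div_lt_one (norm_pos_iff.2 (hne y (hSL hyS) z hz)), norm_sub_rev]
          exact (hy z hz).2
        refine h2.congr fun z hz => ?_
        have := hne y (hSL hyS) z hz
        field_simp
        ring
      · have h2 : HasLog L (fun z => 1 - (y - x) / (z - x)) := by
          refine HasLog.one_sub (continuousOn_const.div (continuousOn_id.sub continuousOn_const)
            fun z hz => hne x (hSL hx) z hz) fun z hz => ?_
          rw [norm_div, div_lt_one (norm_pos_iff.2 (hne x (hSL hx) z hz))]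
          exact (hy z hz).1
        refine h2.congr fun z hz => ?_
        have := hne x (hSL hx) z hz
        field_simp
        ring
    · intro x y w hx hy hw h1 h2
      refine (h1.mul h2).congr fun z hz => ?_
      have e1 := hne y (hSL hy) z hz
      have e2 := hne w (hSL hw) z hz
      field_simp
  have hp0 : p' ≠ 0 := norm_pos_iff.1 ((le_max_right _ _).trans_lt hR'')
  have h2 : HasLog L (fun z => z - p') := by
    have h3 : HasLog L (fun z => 1 - z / p') := by
      refine HasLog.one_sub (by fun_prop) fun z hz => ?_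
      rw [norm_div, div_lt_one (norm_pos_iff.2 hp0)]
      exact (hR z hz).trans_lt hR'
    refine ((HasLog.const (neg_ne_zero.2 hp0)).mul h3).congr fun z hz => ?_
    field_simp
    ring
  refine (h1.mul h2).congr fun z hz => ?_
  have e1 := hne p' (hSL hp') z hz
  field_simp

/-- two logarithms on compact sets with preconnected intersection can be glued -/
theorem HasLog.glue {L₀ L₂ : Set ℂ} (h0 : IsClosed L₀) (h2 : IsClosed L₂)
    (hM : IsPreconnected (L₀ ∩ L₂)) {F : ℂ → ℂ} (hF0 : HasLog L₀ F) (hF2 : HasLog L₂ F) :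
    HasLog (L₀ ∪ L₂) F := by
  classical
  obtain ⟨f, hf, hf'⟩ := hF0
  obtain ⟨g, hg, hg'⟩ := hF2
  have hpi : (2 * Real.pi * Complex.I : ℂ) ≠ 0 := Complex.two_pi_I_ne_zero
  obtain ⟨n, hn⟩ : ∃ n : ℤ, ∀ z ∈ L₀ ∩ L₂, (f z - g z) / (2 * Real.pi * Complex.I) = n := by
    refine int_const hM (((hf.mono inter_subset_left).sub (hg.mono inter_subset_right)).div_const _)
      fun z hz => ?_
    have : Complex.exp (f z) = Complex.exp (g z) := by rw [hf' z hz.1, hg' z hz.2]
    obtain ⟨n, hn⟩ := Complex.exp_eq_exp_iff_exists_int.1 this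
    exact ⟨n, by rw [hn]; field_simp; ring⟩
  have hfg : ∀ z ∈ L₀ ∩ L₂, f z = g z + n * (2 * Real.pi * Complex.I) := by
    intro z hz
    have := hn z hz
    rw [div_eq_iff hpi] at this
    linear_combination this
  refine ⟨fun z => if z ∈ L₀ then f z else g z + n * (2 * Real.pi * Complex.I), ?_, ?_⟩
  · refine ContinuousOn.union_of_isClosed ?_ ?_ h0 h2
    · exact hf.congr fun z hz => if_pos hz
    · refine (hg.add (continuousOn_const (c := (n : ℂ) * (2 * Real.pi * Complex.I)))).congr
        fun z hz => ?_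
      by_cases hz0 : z ∈ L₀
      · simp only [if_pos hz0, Pi.add_apply]
        exact hfg z ⟨hz0, hz⟩
      · simp only [if_neg hz0, Pi.add_apply]
  · intro z hz
    by_cases hz0 : z ∈ L₀
    · simp only [if_pos hz0]
      exact hf' z hz0
    · simp only [if_neg hz0]
      rw [Complex.exp_add, hg' z (hz.resolve_left hz0)]
      rw [Complex.exp_int_mul_two_pi_mul_I, mul_one]

/-! ### The winding argument -/

/-- a function which is `0` or `1` off a compact set extends to the plane modulo integers -/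
theorem extend_theta {Ω K : Set ℂ} (hΩ : IsOpen Ω) (hΩc : IsConnected Ω) (hK : IsCompact K)
    (hKΩ : K ⊆ Ω) {u : ℂ → ℝ} (hu : ContinuousOn u Ω) (hu01 : ∀ z ∈ Ω \ K, u z = 0 ∨ u z = 1) :
    ∃ θ : ℂ → ℂ, Continuous θ ∧ (∀ z ∈ Ω, θ z = u z) ∧ ∀ z ∉ K, ∃ n : ℤ, θ z = n := by
  classical
  have hpi : (2 * Real.pi * Complex.I : ℂ) ≠ 0 := Complex.two_pi_I_ne_zero
  set H : ℂ → ℂ := fun z => if z ∈ Ω then Complex.exp (2 * Real.pi * Complex.I * u z) else 1
    with hH
  have hH1 : ∀ z ∈ Kᶜ, H z = 1 := by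
    intro z hz
    by_cases hzΩ : z ∈ Ω
    · simp only [hH, if_pos hzΩ]
      rcases hu01 z ⟨hzΩ, hz⟩ with h | h <;> rw [h] <;> simp
    · simp only [hH, if_neg hzΩ]
  have hHΩ : ∀ z ∈ Ω, H z = Complex.exp (2 * Real.pi * Complex.I * u z) := by
    intro z hz
    simp only [hH, if_pos hz]
  have hHc : Continuous H := by
    rw [continuous_iff_continuousAt]
    intro z
    by_cases hz : z ∈ K
    · have h1 : ContinuousOn H Ω := by
        refine ContinuousOn.congr ?_ hHΩ
        exact ((continuousOn_const.mul (Complex.continuous_ofReal.comp_continuousOn hu))).cexp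
      exact h1.continuousAt (hΩ.mem_nhds (hKΩ hz))
    · have h1 : ContinuousOn H Kᶜ := ContinuousOn.congr continuousOn_const hH1
      exact h1.continuousAt (hK.isClosed.isOpen_compl.mem_nhds hz)
  have hH0 : ∀ z, H z ≠ 0 := by
    intro z
    by_cases hz : z ∈ Ω
    · rw [hHΩ z hz]
      exact Complex.exp_ne_zero _
    · simp only [hH, if_neg hz]
      exact one_ne_zero
  obtain ⟨g, hg, hg'⟩ := log_exists H hHc hH0
  -- difference with `u`
  obtain ⟨n, hn⟩ : ∃ n : ℤ, ∀ z ∈ Ω, g z / (2 * Real.pi * Complex.I) - u z = n := by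
    refine int_const hΩc.isPreconnected ((hg.continuousOn.div_const _).sub
      (Complex.continuous_ofReal.comp_continuousOn hu)) fun z hz => ?_
    have : Complex.exp (g z) = Complex.exp (2 * Real.pi * Complex.I * u z) := by
      rw [hg', hHΩ z hz]
    obtain ⟨n, hn⟩ := Complex.exp_eq_exp_iff_exists_int.1 this
    exact ⟨n, by rw [hn]; field_simp; ring⟩
  refine ⟨fun z => g z / (2 * Real.pi * Complex.I) - n, (hg.div_const _).sub continuous_const,
    fun z hz => ?_, fun z hz => ?_⟩
  · have := hn z hz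
    linear_combination this
  · have : Complex.exp (g z) = Complex.exp 0 := by
      rw [hg', hH1 z hz, Complex.exp_zero]
    obtain ⟨m, hm⟩ := Complex.exp_eq_exp_iff_exists_int.1 this
    refine ⟨m - n, ?_⟩
    simp only
    rw [hm]
    push_cast
    field_simp
    ring

/-- if `u = 1` at some points near infinity, then `u = 1` near infinity -/
theorem far_one {Ω K : Set ℂ} (hΩ : IsOpen Ω) (hΩc : IsConnected Ω) (hK : IsCompact K)
    (hKΩ : K ⊆ Ω) {u : ℂ → ℝ} (hu : ContinuousOn u Ω) (hu01 : ∀ z ∈ Ω \ K, u z = 0 ∨ u z = 1)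
    (hy : ∀ R : ℝ, ∃ z ∈ Ω, R < ‖z‖ ∧ u z = 1) : ∃ R : ℝ, ∀ z ∈ Ω, R < ‖z‖ → u z = 1 := by
  obtain ⟨θ, hθ, hθu, hθn⟩ := extend_theta hΩ hΩc hK hKΩ hu hu01
  obtain ⟨R₀, hR₀⟩ := hK.isBounded.exists_norm_le
  set R : ℝ := max R₀ 1 with hR
  have hRpos : 0 < R := lt_of_lt_of_le one_pos (le_max_right _ _)
  have hRK : ∀ z, R < ‖z‖ → z ∉ K := by
    intro z hz hzK
    have := hR₀ z hzK
    have := le_max_left R₀ 1
    linarith
  obtain ⟨n, hn⟩ := int_const (preconn_out hRpos) hθ.continuousOn
    (fun z hz => hθn z (hRK z hz))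
  obtain ⟨y, hy1, hy2, hy3⟩ := hy R
  have h1 := hn y hy2
  rw [hθu y hy1, hy3] at h1
  refine ⟨R, fun z hz hzR => ?_⟩
  have h2 := hn z hzR
  rw [hθu z hz, ← h1] at h2
  exact_mod_cast h2

/-- **The winding argument.**  `u` is a continuous function on the domain `Ω` with `u = 0` or
`u = 1` off the compact set `K ⊆ Ω`, `u = 0` at points near `p ∉ Ω` and `u = 1` at points near
`∞`.  Then `z - p` has no continuous logarithm on `K`. -/
theorem no_log_K {Ω K : Set ℂ} (hΩ : IsOpen Ω) (hΩc : IsConnected Ω) (hK : IsCompact K)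
    (hKΩ : K ⊆ Ω) {u : ℂ → ℝ} (hu : ContinuousOn u Ω) (hu01 : ∀ z ∈ Ω \ K, u z = 0 ∨ u z = 1)
    {p : ℂ} (hp : p ∉ Ω) (hx : ∀ r > 0, ∃ z ∈ Ω, dist z p < r ∧ u z = 0)
    (hy : ∀ R : ℝ, ∃ z ∈ Ω, R < ‖z‖ ∧ u z = 1) (hlog : HasLog K (fun z => z - p)) : False := by
  classical
  obtain ⟨θ, hθ, hθu, hθn⟩ := extend_theta hΩ hΩc hK hKΩ hu hu01
  have hpK : p ∉ K := fun h => hp (hKΩ h)
  -- near `p`
  obtain ⟨r, hr, hrK⟩ := Metric.isOpen_iff.1 hK.isClosed.isOpen_compl p hpK
  have hnear : ∀ z ∈ Metric.ball p r, θ z = 0 := by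
    obtain ⟨n, hn⟩ := int_const (convex_ball p r).isPreconnected hθ.continuousOn
      (fun z hz => hθn z (hrK hz))
    obtain ⟨x, hx1, hx2, hx3⟩ := hx r hr
    have h1 := hn x hx2
    rw [hθu x hx1, hx3] at h1
    intro z hz
    rw [hn z hz, ← h1]
    simp
  -- far away
  obtain ⟨R₀, hR₀⟩ := hK.isBounded.exists_norm_le
  set R : ℝ := max R₀ 1 with hR
  have hRpos : 0 < R := lt_of_lt_of_le one_pos (le_max_right _ _)
  have hRK : ∀ z, R < ‖z‖ → z ∉ K := by
    intro z hz hzK
    have := hR₀ z hzK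
    have := le_max_left R₀ 1
    linarith
  have hfar : ∀ z, R < ‖z‖ → θ z = 1 := by
    obtain ⟨n, hn⟩ := int_const (preconn_out hRpos) hθ.continuousOn
      (fun z hz => hθn z (hRK z hz))
    obtain ⟨y, hy1, hy2, hy3⟩ := hy R
    have h1 := hn y hy2
    rw [hθu y hy1, hy3] at h1
    intro z hz
    rw [hn z hz, ← h1]
    simp
  -- the function `Φ`
  obtain ⟨w, hw, hw'⟩ := hlog
  set Φ : ℂ → ℂ := fun z => if z ∈ K then Complex.exp ((1 - θ z) * w z) else
    if θ z = 0 then z - p else 1 with hΦ
  have hΦK : ∀ z ∈ K, Φ z = Complex.exp ((1 - θ z) * w z) := by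
    intro z hz
    simp only [hΦ, if_pos hz]
  have hΦ0 : ∀ z ∈ {z | θ z = 0}, Φ z = z - p := by
    intro z hz
    by_cases hzK : z ∈ K
    · rw [hΦK z hzK, hz, sub_zero, one_mul, hw' z hzK]
    · have hz' : θ z = 0 := hz
      simp only [hΦ, if_neg hzK, if_pos hz']
  have hΦ1 : ∀ z ∈ {z | θ z = 1}, Φ z = 1 := by
    intro z hz
    have hz' : θ z = 1 := hz
    by_cases hzK : z ∈ K
    · rw [hΦK z hzK, hz', sub_self, zero_mul, Complex.exp_zero]
    · have : θ z ≠ 0 := by rw [hz']; exact one_ne_zero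
      simp only [hΦ, if_neg hzK, if_neg this]
  have hΦc : Continuous Φ := by
    rw [continuous_iff_continuousAt]
    intro z
    by_cases hz : z ∈ K
    · -- in `Ω`
      have c0 : IsClosed {z | θ z = 0} := isClosed_eq hθ continuous_const
      have c1 : IsClosed {z | θ z = 1} := isClosed_eq hθ continuous_const
      have h1 : ContinuousOn Φ K :=
        ContinuousOn.congr (((continuousOn_const.sub hθ.continuousOn).mul hw).cexp) hΦK
      have h2 : ContinuousOn Φ {z | θ z = 0} := ContinuousOn.congr (by fun_prop) hΦ0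
      have h3 : ContinuousOn Φ {z | θ z = 1} := ContinuousOn.congr (by fun_prop) hΦ1
      have h4 : ContinuousOn Φ (K ∪ ({z | θ z = 0} ∪ {z | θ z = 1})) :=
        h1.union_of_isClosed (h2.union_of_isClosed h3 c0 c1) hK.isClosed (c0.union c1)
      refine h4.continuousAt (Filter.mem_of_superset (hΩ.mem_nhds (hKΩ hz)) fun x hx => ?_)
      by_cases hxK : x ∈ K
      · exact Or.inl hxK
      · right
        rcases hu01 x ⟨hx, hxK⟩ with h | h
        · left
          simp only [mem_ofPred_eq]
          rw [hθu x hx, h]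
          simp
        · right
          simp only [mem_ofPred_eq]
          rw [hθu x hx, h]
          simp
    · -- off `K` the function `θ` is locally constant
      obtain ⟨s, hs, hsK⟩ := Metric.isOpen_iff.1 hK.isClosed.isOpen_compl z hz
      obtain ⟨n, hn⟩ := int_const (convex_ball z s).isPreconnected hθ.continuousOn
        (fun x hx => hθn x (hsK hx))
      have hball : Metric.ball z s ∈ 𝓝 z := Metric.ball_mem_nhds z hs
      by_cases h0 : (n : ℂ) = 0
      · have : Φ =ᶠ[𝓝 z] fun x => x - p := by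
          filter_upwards [hball] with x hx
          exact hΦ0 x (by simp only [mem_ofPred_eq]; rw [hn x hx, h0])
        exact (continuousAt_congr this).2 (by fun_prop)
      · have : Φ =ᶠ[𝓝 z] fun _ => 1 := by
          filter_upwards [hball] with x hx
          have h1 : x ∉ K := hsK hx
          have h2 : θ x ≠ 0 := by rw [hn x hx]; exact h0
          simp only [hΦ, if_neg h1, if_neg h2]
        exact (continuousAt_congr this).2 (by fun_prop)
  have hΦne : ∀ z, z ≠ p → Φ z ≠ 0 := by
    intro z hz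
    by_cases hzK : z ∈ K
    · rw [hΦK z hzK]
      exact Complex.exp_ne_zero _
    · by_cases h0 : θ z = 0
      · simp only [hΦ, if_neg hzK, if_pos h0]
        exact sub_ne_zero.2 hz
      · simp only [hΦ, if_neg hzK, if_neg h0]
        exact one_ne_zero
  -- the quotient
  set Ψ : ℂ → ℂ := fun z => if z = p then 1 else Φ z / (z - p) with hΨ
  have hΨc : Continuous Ψ := by
    rw [continuous_iff_continuousAt]
    intro z
    by_cases hz : z = p
    · subst hz
      have : Ψ =ᶠ[𝓝 z] fun _ => 1 := by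
        filter_upwards [Metric.ball_mem_nhds z hr] with x hx
        by_cases hxz : x = z
        · simp only [hΨ, if_pos hxz]
        · simp only [hΨ, if_neg hxz]
          rw [hΦ0 x (hnear x hx)]
          exact div_self (sub_ne_zero.2 hxz)
      exact (continuousAt_congr this).2 (by fun_prop)
    · have : Ψ =ᶠ[𝓝 z] fun x => Φ x / (x - p) := by
        filter_upwards [isOpen_ne.mem_nhds hz] with x hx
        have hx' : x ≠ p := hx
        simp only [hΨ, if_neg hx']
      refine (continuousAt_congr this).2 ?_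
      exact hΦc.continuousAt.div (by fun_prop) (sub_ne_zero.2 hz)
  have hΨ0 : ∀ z, Ψ z ≠ 0 := by
    intro z
    by_cases hz : z = p
    · simp only [hΨ, if_pos hz]
      exact one_ne_zero
    · simp only [hΨ, if_neg hz]
      exact div_ne_zero (hΦne z hz) (sub_ne_zero.2 hz)
  obtain ⟨g, hg, hg'⟩ := log_exists Ψ hΨc hΨ0
  have hR1 : 0 < R + ‖p‖ + 1 := by positivity
  refine no_log_circle (z := p) hR1 (m := -1) (by norm_num) hg.continuousOn fun x hx => ?_
  have hxd : ‖x - p‖ = R + ‖p‖ + 1 := by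
    rw [← dist_eq_norm]
    exact hx
  have hxn : R < ‖x‖ := by
    have := norm_sub_le x p
    linarith
  have hxp : x ≠ p := by
    rintro rfl
    rw [sub_self, norm_zero] at hxd
    linarith
  rw [hg', zpow_neg_one]
  simp only [hΨ, if_neg hxp]
  rw [hΦ1 x (hfar x hxn), one_div]

end Pool.Agent.ALLC.Comp
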