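import Pool.Agent.Helper17_ALLC.Defs
import Pool.Agent.Helper98_ALLC.Plane

/-!
# Connections near the boundary of an ALLC space
-/

set_option autoImplicit false

open Set Metric UniformSpace Topology Filter

namespace Pool.Agent.ALLC.Comp

variable {X : Type} [MetricSpace X]

/-- points of `X` near a point of the completion -/
theorem exists_near (a : Completion X) {η : ℝ} (hη : 0 < η) :
    ∃ x : X, dist (x : Completion X) a < η := by
  obtain ⟨x, hx⟩ := Completion.denseRange_coe.exists_dist_lt a hη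
  exact ⟨x, by rwa [dist_comm]⟩

/-- annuli centred at points of the completion -/
theorem allc_point {lam : ℝ} (hlam : 1 ≤ lam) (h : IsALLC X lam) (a : Completion X) {r R : ℝ}
    (hr : 0 < r) (hR : r < R) {p q : X} (hp : r ≤ dist (p : Completion X) a)
    (hp' : dist (p : Completion X) a ≤ R) (hq : r ≤ dist (q : Completion X) a)
    (hq' : dist (q : Completion X) a ≤ R) :
    ∃ K : Set X, IsCompact K ∧ IsConnected K ∧ p ∈ K ∧ q ∈ K ∧
      ∀ z ∈ K, r / (2 * lam) ≤ dist (z : Completion X) a ∧
        dist (z : Completion X) a ≤ 2 * lam * R := by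
  have hl0 : 0 < lam := by linarith
  set η : ℝ := r / (4 * lam) with hη
  have hη0 : 0 < η := by positivity
  have hηlam : lam * η = r / 4 := by
    rw [hη]; field_simp
  have hη4 : η ≤ r / 4 := by
    rw [← hηlam]
    nlinarith
  obtain ⟨a', ha'⟩ := exists_near a hη0
  have key : ∀ z : X, |dist a' z - dist (z : Completion X) a| ≤ η := by
    intro z
    rw [← Completion.dist_eq a' z, abs_le]
    have h1 := dist_triangle (a' : Completion X) a (z : Completion X)
    have h2 := dist_triangle (z : Completion X) (a' : Completion X) a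
    rw [dist_comm a (z : Completion X)] at h1
    rw [dist_comm (z : Completion X) (a' : Completion X)] at h2
    constructor <;> linarith
  have hmem : ∀ z : X, r ≤ dist (z : Completion X) a → dist (z : Completion X) a ≤ R →
      z ∈ annulus a' (r - η) (R + η) := by
    intro z h1 h2
    have := abs_le.1 (key z)
    exact ⟨by linarith, by linarith⟩
  obtain ⟨K, hK, hKc, hpK, hqK, hKA⟩ := h a' (r - η) (R + η) (by linarith) (by linarith)
    p (hmem p hp hp') q (hmem q hq hq')
  refine ⟨K, hK, hKc, hpK, hqK, fun z hz => ?_⟩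
  have h1 := abs_le.1 (key z)
  obtain ⟨h2, h3⟩ := hKA hz
  constructor
  · have h4 : r / (2 * lam) ≤ (r - η) / lam - η := by
      rw [div_le_iff₀ (by positivity)]
      have : ((r - η) / lam - η) * (2 * lam) = 2 * (r - η) - 2 * (lam * η) := by
        field_simp
      rw [this, hηlam]
      linarith
    linarith
  · have h4 : lam * (R + η) + η ≤ 2 * lam * R := by
      have : lam * (R + η) + η = lam * R + lam * η + η := by ring
      rw [this, hηlam]
      nlinarith
    linarith

/-- points near a boundary point can be joined near the boundary point -/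
theorem allc_near {lam : ℝ} (hlam : 1 ≤ lam) (h : IsALLC X lam) {e : Completion X}
    (he : e ∈ metricBoundary X) {δ : ℝ} (hδ : 0 < δ) :
    ∃ ε > 0, ∀ x x' : X, dist (x : Completion X) e < ε → dist (x' : Completion X) e < ε →
      ∃ T : Set X, IsPreconnected T ∧ x ∈ T ∧ x' ∈ T ∧ ∀ t ∈ T, dist (t : Completion X) e < δ := by
  have hl0 : 0 < lam := by linarith
  have hpos : ∀ x : X, 0 < dist (x : Completion X) e := by
    intro x
    rw [dist_pos]
    rintro rfl
    exact he ⟨x, rfl⟩
  refine ⟨δ / (4 * lam), by positivity, fun x x' hx hx' => ?_⟩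
  set ε : ℝ := δ / (4 * lam) with hε
  have hε0 : 0 < ε := by positivity
  have hεlam : lam * ε = δ / 4 := by
    rw [hε]; field_simp
  obtain ⟨a, ha⟩ := exists_near e (η := min ε (min (dist (x : Completion X) e)
    (dist (x' : Completion X) e))) (lt_min hε0 (lt_min (hpos x) (hpos x')))
  obtain ⟨ha1, ha2⟩ := lt_min_iff.1 ha
  obtain ⟨ha3, ha4⟩ := lt_min_iff.1 ha2
  have hd : ∀ z : X, dist a z ≤ dist (a : Completion X) e + dist (z : Completion X) e := by
    intro z
    rw [← Completion.dist_eq a z]
    have := dist_triangle (a : Completion X) e z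
    rwa [dist_comm e (z : Completion X)] at this
  have hax : 0 < dist a x := by
    rw [dist_pos]
    rintro rfl
    exact lt_irrefl _ ha3
  have hax' : 0 < dist a x' := by
    rw [dist_pos]
    rintro rfl
    exact lt_irrefl _ ha4
  have h1 := hd x
  have h2 := hd x'
  obtain ⟨K, hK, hKc, hxK, hxK', hKA⟩ := h a (min (dist a x) (dist a x')) (2 * ε)
    (lt_min hax hax') ((min_le_left _ _).trans_lt (by linarith)) x
    ⟨min_le_left _ _, by linarith⟩ x' ⟨min_le_right _ _, by linarith⟩
  refine ⟨K, hKc.isPreconnected, hxK, hxK', fun t ht => ?_⟩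
  have h3 := (hKA ht).2
  have h4 : dist (t : Completion X) e ≤ dist a t + dist (a : Completion X) e := by
    rw [← Completion.dist_eq a t, dist_comm (a : Completion X) (t : Completion X)]
    exact dist_triangle _ _ _
  have h5 : lam * (2 * ε) = δ / 2 := by
    have : lam * (2 * ε) = 2 * (lam * ε) := by ring
    rw [this, hεlam]; ring
  have h6 : ε ≤ δ / 4 := by
    rw [← hεlam]
    nlinarith
  linarith

/-- a compact subset of `X` stays away from the boundary -/
theorem compact_away {L : Set X} (hL : IsCompact L) {e : Completion X}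
    (he : e ∈ metricBoundary X) : ∃ δ > 0, ∀ x : X, dist (x : Completion X) e < δ → x ∉ L := by
  have h1 : IsCompact ((↑) '' L : Set (Completion X)) :=
    hL.image (Completion.continuous_coe X)
  have h2 : e ∉ ((↑) '' L : Set (Completion X)) := by
    rintro ⟨x, _, rfl⟩
    exact he ⟨x, rfl⟩
  obtain ⟨δ, hδ, hb⟩ := Metric.isOpen_iff.1 h1.isClosed.isOpen_compl e h2
  exact ⟨δ, hδ, fun x hx hxL => hb (Metric.mem_ball.2 hx) ⟨x, hxL, rfl⟩⟩

/-- all points of `X` near `e` belong to `C` -/
def Near (C : Set X) (e : Completion X) : Prop :=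
  ∃ ε > 0, ∀ x : X, dist (x : Completion X) e < ε → x ∈ C

/-- points near a boundary point are in the same component of the complement of a compact set -/
theorem same_comp {lam : ℝ} (hlam : 1 ≤ lam) (h : IsALLC X lam) {L : Set X} (hL : IsCompact L)
    {e : Completion X} (he : e ∈ metricBoundary X) :
    ∃ ε > 0, ∀ x x' : X, dist (x : Completion X) e < ε → dist (x' : Completion X) e < ε →
      x' ∈ connectedComponentIn Lᶜ x := by
  obtain ⟨δ, hδ, hδL⟩ := compact_away hL he
  obtain ⟨ε, hε, hT⟩ := allc_near hlam h he hδ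
  refine ⟨ε, hε, fun x x' hx hx' => ?_⟩
  obtain ⟨T, hT1, hT2, hT3, hT4⟩ := hT x x' hx hx'
  exact hT1.subset_connectedComponentIn hT2 (fun t ht => hδL t (hT4 t ht)) hT3

theorem near_of_one {L : Set X} {x₀ : X} {e : Completion X} {ε : ℝ} (hε : 0 < ε)
    (hs : ∀ x x' : X, dist (x : Completion X) e < ε → dist (x' : Completion X) e < ε →
      x' ∈ connectedComponentIn Lᶜ x) {x : X} (hx : dist (x : Completion X) e < ε)
    (hxC : x ∈ connectedComponentIn Lᶜ x₀) : Near (connectedComponentIn Lᶜ x₀) e := by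
  refine ⟨ε, hε, fun x' hx' => ?_⟩
  rw [connectedComponentIn_eq hxC]
  exact hs x x' hx hx'

/-- `Near` is constant along connected subsets of the boundary -/
theorem near_const {lam : ℝ} (hlam : 1 ≤ lam) (h : IsALLC X lam) {L : Set X} (hL : IsCompact L)
    {x₀ : X} {E : Set (Completion X)} (hE : IsPreconnected E) (hEb : E ⊆ metricBoundary X)
    {e e' : Completion X} (he : e ∈ E) (he' : e' ∈ E)
    (hn : Near (connectedComponentIn Lᶜ x₀) e) : Near (connectedComponentIn Lᶜ x₀) e' := by
  refine hE.induction₂' (fun e e' => Near (connectedComponentIn Lᶜ x₀) e →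
    Near (connectedComponentIn Lᶜ x₀) e') ?_ ?_ he he' hn
  · intro e he
    obtain ⟨ε, hε, hs⟩ := same_comp hlam h hL (hEb he)
    have hb : Metric.ball e (ε / 2) ∈ 𝓝[E] e := mem_nhdsWithin_of_mem_nhds (ball_mem_nhds e (by linarith))
    filter_upwards [hb] with e' he'
    rw [Metric.mem_ball] at he'
    constructor
    · rintro ⟨ε₁, hε₁, h1⟩
      obtain ⟨x, hx⟩ := exists_near e (lt_min hε hε₁)
      obtain ⟨hx1, hx2⟩ := lt_min_iff.1 hx
      refine ⟨ε / 2, by linarith, fun x' hx' => ?_⟩
      rw [connectedComponentIn_eq (h1 x hx2)]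
      refine hs x x' hx1 ?_
      have := dist_triangle (x' : Completion X) e' e
      linarith
    · rintro ⟨ε₁, hε₁, h1⟩
      obtain ⟨x, hx⟩ := exists_near e' (lt_min (half_pos hε) hε₁)
      obtain ⟨hx1, hx2⟩ := lt_min_iff.1 hx
      refine near_of_one hε hs (x := x) ?_ (h1 x hx2)
      have := dist_triangle (x : Completion X) e' e
      linarith
  · intro x y z _ _ _ h1 h2 h3
    exact h2 (h1 h3)

/-- Two boundary components which both meet the sphere of radius `ρ` about `a` are near the same
component of the complement of a compact set which does not meet the annulus around this sphere -/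
theorem near_both {lam : ℝ} (hlam : 1 ≤ lam) (h : IsALLC X lam) {L : Set X} (hL : IsCompact L)
    {E F : Set (Completion X)} (hE : IsPreconnected E) (hEb : E ⊆ metricBoundary X)
    (hF : IsPreconnected F) (hFb : F ⊆ metricBoundary X) {a : Completion X} {ρ : ℝ} (hρ : 0 < ρ)
    (hLa : ∀ x ∈ L, dist (x : Completion X) a < ρ / (4 * lam) ∨
      4 * lam * ρ < dist (x : Completion X) a)
    {e f : Completion X} (he : e ∈ E) (hf : f ∈ F) (hea : dist e a = ρ) (hfa : dist f a = ρ) :
    ∃ C : Set X, IsPreconnected C ∧ C ⊆ Lᶜ ∧ (∀ e' ∈ E, Near C e') ∧ ∀ f' ∈ F, Near C f' := by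
  have hl0 : 0 < lam := by linarith
  obtain ⟨ε, hε, hs⟩ := same_comp hlam h hL (hEb he)
  obtain ⟨ε', hε', hs'⟩ := same_comp hlam h hL (hFb hf)
  obtain ⟨x, hx⟩ := exists_near e (lt_min hε (half_pos hρ))
  obtain ⟨y, hy⟩ := exists_near f (lt_min hε' (half_pos hρ))
  obtain ⟨hx1, hx2⟩ := lt_min_iff.1 hx
  obtain ⟨hy1, hy2⟩ := lt_min_iff.1 hy
  have bound : ∀ (z : X) (g : Completion X), dist g a = ρ → dist (z : Completion X) g < ρ / 2 →
      ρ / 2 ≤ dist (z : Completion X) a ∧ dist (z : Completion X) a ≤ 3 * ρ / 2 := by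
    intro z g hg hz
    have h1 := dist_triangle (z : Completion X) g a
    have h2 := dist_triangle g (z : Completion X) a
    rw [dist_comm g (z : Completion X)] at h2
    constructor <;> linarith
  obtain ⟨hx3, hx4⟩ := bound x e hea hx2
  obtain ⟨hy3, hy4⟩ := bound y f hfa hy2
  obtain ⟨K, hK, hKc, hxK, hyK, hKA⟩ := allc_point hlam h a (r := ρ / 2) (R := 3 * ρ / 2)
    (by linarith) (by linarith) hx3 hx4 hy3 hy4
  have hKL : K ⊆ Lᶜ := by
    intro z hz hzL
    obtain ⟨h1, h2⟩ := hKA z hz
    have e1 : ρ / 2 / (2 * lam) = ρ / (4 * lam) := by field_simp; norm_num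
    rw [e1] at h1
    rcases hLa z hzL with h3 | h3
    · linarith
    · have : 2 * lam * (3 * ρ / 2) ≤ 4 * lam * ρ := by nlinarith [mul_pos hl0 hρ]
      linarith
  have hyC : y ∈ connectedComponentIn Lᶜ x :=
    hKc.isPreconnected.subset_connectedComponentIn hxK hKL hyK
  have hxC : x ∈ connectedComponentIn Lᶜ x := mem_connectedComponentIn (hKL hxK)
  refine ⟨connectedComponentIn Lᶜ x, isPreconnected_connectedComponentIn,
    connectedComponentIn_subset _ _, fun e' he' => ?_, fun f' hf' => ?_⟩
  · exact near_const hlam h hL hE hEb he he' (near_of_one hε hs hx1 hxC)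
  · exact near_const hlam h hL hF hFb hf hf' (near_of_one hε' hs' hy1 hyC)

/-- a connected compact set containing the part of a compact set on a sphere -/
theorem exists_M {lam : ℝ} (hlam : 1 ≤ lam) (h : IsALLC X lam)
    (hloc : ∀ x : X, ∀ W ∈ 𝓝 x, ∃ V ∈ 𝓝 x, V ⊆ W ∧ IsCompact V ∧ IsPreconnected V)
    (a : Completion X) {ρ : ℝ} (hρ : 0 < ρ) {S : Set X} (hS : IsCompact S)
    (hSa : ∀ x ∈ S, dist (x : Completion X) a = ρ) :
    ∃ M : Set X, IsCompact M ∧ IsPreconnected M ∧ S ⊆ M ∧
      ∀ z ∈ M, ρ / (4 * lam) ≤ dist (z : Completion X) a ∧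
        dist (z : Completion X) a ≤ 4 * lam * ρ := by
  have hl0 : 0 < lam := by linarith
  rcases S.eq_empty_or_nonempty with rfl | ⟨x₀, hx₀⟩
  · exact ⟨∅, isCompact_empty, isPreconnected_empty, Subset.rfl, by simp⟩
  have hd : Continuous fun x : X => dist (x : Completion X) a :=
    (Completion.continuous_coe X).dist continuous_const
  have key : ∃ M : Set X, IsCompact M ∧ IsPreconnected M ∧ x₀ ∈ M ∧ S ⊆ M ∧
      ∀ z ∈ M, ρ / (4 * lam) ≤ dist (z : Completion X) a ∧
        dist (z : Completion X) a ≤ 4 * lam * ρ := by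
    refine hS.induction_on (p := fun S => ∃ M : Set X, IsCompact M ∧ IsPreconnected M ∧ x₀ ∈ M ∧
      S ⊆ M ∧ ∀ z ∈ M, ρ / (4 * lam) ≤ dist (z : Completion X) a ∧
        dist (z : Completion X) a ≤ 4 * lam * ρ) ?_ ?_ ?_ ?_
    · refine ⟨{x₀}, isCompact_singleton, isPreconnected_singleton, rfl, empty_subset _, ?_⟩
      rintro z rfl
      rw [hSa z hx₀]
      constructor
      · rw [div_le_iff₀ (by positivity)]
        nlinarith
      · nlinarith
    · rintro s t hst ⟨M, h1, h2, h3, h4, h5⟩
      exact ⟨M, h1, h2, h3, hst.trans h4, h5⟩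
    · rintro s t ⟨M, h1, h2, h3, h4, h5⟩ ⟨M', h1', h2', h3', h4', h5'⟩
      refine ⟨M ∪ M', h1.union h1', h2.union x₀ h3 h3' h2', Or.inl h3,
        union_subset_union h4 h4', ?_⟩
      rintro z (hz | hz)
      · exact h5 z hz
      · exact h5' z hz
    · intro x hx
      have hW : {z : X | ρ / 2 < dist (z : Completion X) a ∧ dist (z : Completion X) a < 2 * ρ} ∈
          𝓝 x := by
        refine (IsOpen.mem_nhds ?_ ?_)
        · exact (isOpen_lt continuous_const hd).inter (isOpen_lt hd continuous_const)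
        · rw [mem_ofPred_eq, hSa x hx]
          constructor <;> linarith
      obtain ⟨V, hV, hVW, hVc, hVp⟩ := hloc x _ hW
      obtain ⟨K, hK, hKc, hxK, hyK, hKA⟩ := allc_point hlam h a (r := ρ / 2) (R := 2 * ρ)
        (by linarith) (by linarith) (p := x₀) (q := x) (by rw [hSa x₀ hx₀]; linarith)
        (by rw [hSa x₀ hx₀]; linarith) (by rw [hSa x hx]; linarith) (by rw [hSa x hx]; linarith)
      refine ⟨V, mem_nhdsWithin_of_mem_nhds hV, V ∪ K, hVc.union hK,
        hVp.union x (mem_of_mem_nhds hV) hyK hKc.isPreconnected, Or.inr hxK,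
        subset_union_left, ?_⟩
      have hlow : ρ / (4 * lam) ≤ ρ / 2 := by
        rw [div_le_div_iff₀ (by positivity) (by norm_num)]
        nlinarith
      have hup : 2 * ρ ≤ 4 * lam * ρ := by nlinarith
      rintro z (hz | hz)
      · obtain ⟨h1, h2⟩ := hVW hz
        exact ⟨by linarith, by linarith⟩
      · obtain ⟨h1, h2⟩ := hKA z hz
        have e1 : ρ / 2 / (2 * lam) = ρ / (4 * lam) := by field_simp; norm_num
        rw [e1] at h1
        exact ⟨h1, by linarith⟩
  obtain ⟨M, h1, h2, _, h3, h4⟩ := key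
  exact ⟨M, h1, h2, h3, h4⟩

end Pool.Agent.ALLC.Comp
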