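import Pool.Agent.Helper98_ALLC.Ster

/-!
# Uniform relative separation of boundary components when the completion is proper
-/

set_option autoImplicit false

open Set Metric UniformSpace Topology Filter

open scoped ENNReal

namespace Pool.Agent.ALLC.Comp

variable {X : Type} [MetricSpace X]

/-- `z - p` has a logarithm on the image of a compact set which does not meet an annulus such that
both boundary components meet the sphere in the middle of the annulus -/
theorem log_of_annulus {lam : ℝ} (hlam : 1 ≤ lam) (h : IsALLC X lam) {φ : X → ℂ}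
    (hφ : IsOpenEmbedding φ) {L : Set X} (hL : IsCompact L)
    {E F : Set (Completion X)} (hE : IsPreconnected E) (hEb : E ⊆ metricBoundary X)
    (hF : IsPreconnected F) (hFb : F ⊆ metricBoundary X) {a : Completion X} {ρ : ℝ} (hρ : 0 < ρ)
    (hLa : ∀ x ∈ L, dist (x : Completion X) a < ρ / (4 * lam) ∨
      4 * lam * ρ < dist (x : Completion X) a)
    {e f : Completion X} (he : e ∈ E) (hf : f ∈ F) (hea : dist e a = ρ) (hfa : dist f a = ρ)
    {p : ℂ} (hp : p ∉ range φ) {e₀ f₀ : Completion X} (he₀ : e₀ ∈ E) (hf₀ : f₀ ∈ F)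
    (hpe : ∀ ε > 0, ∀ N ∈ 𝓝 p, ∃ x : X, dist (x : Completion X) e₀ < ε ∧ φ x ∈ N)
    (hqf : ∀ ε > 0, ∀ R : ℝ, ∃ y : X, dist (y : Completion X) f₀ < ε ∧ R < ‖φ y‖) :
    HasLog (φ '' L) (fun z => z - p) := by
  obtain ⟨C, hC, hCL, hCE, hCF⟩ := near_both hlam h hL hE hEb hF hFb hρ hLa he hf hea hfa
  obtain ⟨ε, hε, hn⟩ := hCE e₀ he₀
  obtain ⟨ε', hε', hn'⟩ := hCF f₀ hf₀
  refine hasLog_of_unbounded (hL.image hφ.continuous) fun R => ?_
  obtain ⟨y, hy1, hy2⟩ := hqf ε' hε' R
  refine ⟨insert p (φ '' C), ?_, ?_, mem_insert _ _, φ y, mem_insert_of_mem _ ⟨y, hn' y hy1, rfl⟩,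
    hy2⟩
  · refine (hC.image φ hφ.continuous.continuousOn).subset_closure (subset_insert _ _)
      (insert_subset ?_ subset_closure)
    rw [mem_closure_iff_nhds]
    intro N hN
    obtain ⟨x, hx1, hx2⟩ := hpe ε hε N hN
    exact ⟨φ x, hx2, x, hn x hx1, rfl⟩
  · rintro z (rfl | ⟨x, hx, rfl⟩)
    · rintro ⟨x, _, rfl⟩
      exact hp ⟨x, rfl⟩
    · rintro ⟨x', hx', hxx⟩
      rw [hφ.injective hxx] at hx'
      exact hCL hx hx'

/-- the main argument -/
theorem main_arg {lam : ℝ} (hlam : 1 ≤ lam) (hX : HomeoSphereDomain X) (h : IsALLC X lam)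
    (hc : ProperSpace (Completion X)) {E F : Set (Completion X)}
    (hE : ∃ x ∈ metricBoundary X, E = connectedComponentIn (metricBoundary X) x)
    (hF : ∃ x ∈ metricBoundary X, F = connectedComponentIn (metricBoundary X) x) (hne : E ≠ F)
    (hEF : Bornology.IsBounded E ∨ Bornology.IsBounded F) {a : Completion X} {ρ : ℝ} (hρ : 0 < ρ) {e₀ f₀ e₂ f₂ : Completion X}
    (he₀ : e₀ ∈ E) (hf₀ : f₀ ∈ F) (he₂ : e₂ ∈ E) (hf₂ : f₂ ∈ F)
    (he₀a : dist e₀ a = ρ) (hf₀a : dist f₀ a = ρ)
    (he₂a : dist e₂ a = 289 * lam ^ 4 * ρ) (hf₂a : dist f₂ a = 289 * lam ^ 4 * ρ) : False := by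
  have hl0 : 0 < lam := by linarith
  have hEb : E ⊆ metricBoundary X := by
    obtain ⟨x, hx, rfl⟩ := hE
    exact connectedComponentIn_subset _ _
  have hFb : F ⊆ metricBoundary X := by
    obtain ⟨x, hx, rfl⟩ := hF
    exact connectedComponentIn_subset _ _
  have hEp : IsPreconnected E := by
    obtain ⟨x, hx, rfl⟩ := hE
    exact isPreconnected_connectedComponentIn
  have hFp : IsPreconnected F := by
    obtain ⟨x, hx, rfl⟩ := hF
    exact isPreconnected_connectedComponentIn
  -- the embedding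
  obtain ⟨φ, hφ, hqf⟩ := exists_embedding hX (hFb hf₀)
  have hloc := hloc_of_embedding hφ
  have hconn : ConnectedSpace X := by
    obtain ⟨U, hU, hUc, ⟨φ₀⟩⟩ := hX
    have : ConnectedSpace U := isConnected_iff_connectedSpace.1 hUc
    exact φ₀.symm.surjective.connectedSpace φ₀.symm.continuous
  have hlc : LocallyCompactSpace X := hφ.locallyCompactSpace
  have hcl : IsClosed (metricBoundary X) := isClosed_metricBoundary
  -- the separating function
  obtain ⟨u, K, hu, hK, hu01, huE, huF⟩ := exists_sep hcl hE hF hne hEF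
  set g := hφ.toOpenPartialHomeomorph φ with hg
  have hgl : ∀ x, g.symm (φ x) = x := fun x => hφ.toOpenPartialHomeomorph_left_inv φ
  have hΩ : IsOpen (range φ) := hφ.isOpen_range
  have hΩc : IsConnected (range φ) := isConnected_range hφ.continuous
  have huc : ContinuousOn (fun z => u (g.symm z)) (range φ) := by
    have h1 : ContinuousOn g.symm g.target := g.continuousOn_symm
    have h2 : g.target = range φ := hφ.toOpenPartialHomeomorph_target φ
    rw [h2] at h1
    exact hu.comp_continuousOn h1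
  have hu01' : ∀ z ∈ range φ \ φ '' K, u (g.symm z) = 0 ∨ u (g.symm z) = 1 := by
    rintro z ⟨⟨x, rfl⟩, hz⟩
    rw [hgl]
    exact hu01 x fun hx => hz ⟨x, hx, rfl⟩
  have hKc : IsCompact (φ '' K) := hK.image hφ.continuous
  have hy : ∀ R : ℝ, ∃ z ∈ range φ, R < ‖z‖ ∧ u (g.symm z) = 1 := by
    intro R
    obtain ⟨ε, hε, h1⟩ := huF f₀ hf₀
    obtain ⟨y, hy1, hy2⟩ := hqf ε hε R
    exact ⟨φ y, ⟨y, rfl⟩, hy2, by rw [hgl]; exact h1 y hy1⟩
  obtain ⟨R, hR⟩ := far_one hΩ hΩc hKc (image_subset_range _ _) huc hu01' hy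
  obtain ⟨ε₁, hε₁, hu0⟩ := huE e₀ he₀
  -- the point `p`
  obtain ⟨p, -, hpe⟩ := exists_cluster (ψ := φ) (isCompact_closedBall (0 : ℂ) R) (e := e₀) hε₁
    (fun x hx => by
      rw [mem_closedBall, dist_zero_right]
      by_contra hcon
      push Not at hcon
      have h1 := hR (φ x) ⟨x, rfl⟩ hcon
      rw [hgl, hu0 x hx] at h1
      exact zero_ne_one h1)
  have hp : p ∉ range φ := cluster_not_mem hφ (hEb he₀) hpe
  -- the set `M`
  set ρ₁ : ℝ := 17 * lam ^ 2 * ρ with hρ₁
  have hρ₁pos : 0 < ρ₁ := by positivity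
  have hd : Continuous fun x : X => dist (x : Completion X) a :=
    (Completion.continuous_coe X).dist continuous_const
  have hS : IsCompact (K ∩ {x : X | dist (x : Completion X) a = ρ₁}) :=
    hK.inter_right (isClosed_eq hd continuous_const)
  obtain ⟨M, hM, hMp, hSM, hMa⟩ := exists_M hlam h hloc a hρ₁pos hS (fun x hx => hx.2)
  set L₀ : Set X := (K ∩ {x : X | ρ₁ ≤ dist (x : Completion X) a}) ∪ M with hL₀
  set L₂ : Set X := (K ∩ {x : X | dist (x : Completion X) a ≤ ρ₁}) ∪ M with hL₂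
  have hL₀c : IsCompact L₀ := (hK.inter_right (isClosed_le continuous_const hd)).union hM
  have hL₂c : IsCompact L₂ := (hK.inter_right (isClosed_le hd continuous_const)).union hM
  have hint : L₀ ∩ L₂ = M := by
    ext x
    constructor
    · rintro ⟨h1 | h1, h2 | h2⟩
      · exact hSM ⟨h1.1, le_antisymm h2.2 h1.2⟩
      · exact h2
      · exact h1
      · exact h1
    · intro hx
      exact ⟨Or.inr hx, Or.inr hx⟩
  have hpos : 0 < lam * ρ := mul_pos hl0 hρ
  have hpos2 : 0 < lam * (lam * ρ) := mul_pos hl0 hpos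
  have hlow : lam * ρ ≤ lam * (lam * ρ) := by nlinarith
  have hρ₁' : ρ₁ = 17 * (lam * (lam * ρ)) := by rw [hρ₁]; ring
  -- logarithms
  have hlog₀ : HasLog (φ '' L₀) (fun z => z - p) := by
    refine log_of_annulus hlam h hφ hL₀c hEp hEb hFp hFb (a := a) hρ (fun x hx => Or.inr ?_)
      he₀ hf₀ he₀a hf₀a hp he₀ hf₀ hpe hqf
    rcases hx with hx | hx
    · have h1 : ρ₁ ≤ dist (x : Completion X) a := hx.2
      nlinarith
    · have h1 := (hMa x hx).1
      have h2 : ρ₁ / (4 * lam) = 17 / 4 * (lam * ρ) := by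
        rw [hρ₁]; field_simp
      rw [h2] at h1
      linarith
  have hlog₂ : HasLog (φ '' L₂) (fun z => z - p) := by
    have hρ₂ : 0 < 289 * lam ^ 4 * ρ := by positivity
    have h3 : 289 * lam ^ 4 * ρ / (4 * lam) = 17 / 4 * (lam * ρ₁) := by
      rw [hρ₁]; field_simp; ring
    refine log_of_annulus hlam h hφ hL₂c hEp hEb hFp hFb (a := a) hρ₂ (fun x hx => Or.inl ?_)
      he₂ hf₂ he₂a hf₂a hp he₀ hf₀ hpe hqf
    rw [h3]
    rcases hx with hx | hx
    · have h1 : dist (x : Completion X) a ≤ ρ₁ := hx.2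
      nlinarith
    · have h1 := (hMa x hx).2
      nlinarith [mul_pos hl0 hρ₁pos]
  have hglue : HasLog (φ '' L₀ ∪ φ '' L₂) (fun z => z - p) := by
    refine HasLog.glue (hL₀c.image hφ.continuous).isClosed (hL₂c.image hφ.continuous).isClosed ?_
      hlog₀ hlog₂
    rw [← image_inter hφ.injective, hint]
    exact hMp.image φ hφ.continuous.continuousOn
  have hlogK : HasLog (φ '' K) (fun z => z - p) := by
    obtain ⟨w, hw, hw'⟩ := hglue
    have hsub : φ '' K ⊆ φ '' L₀ ∪ φ '' L₂ := by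
      rintro _ ⟨x, hx, rfl⟩
      rcases le_total ρ₁ (dist (x : Completion X) a) with h1 | h1
      · exact Or.inl ⟨x, Or.inl ⟨hx, h1⟩, rfl⟩
      · exact Or.inr ⟨x, Or.inl ⟨hx, h1⟩, rfl⟩
    exact ⟨w, hw.mono hsub, fun z hz => hw' z (hsub hz)⟩
  -- conclusion
  refine no_log_K hΩ hΩc hKc (image_subset_range _ _) huc hu01' hp (fun r hr => ?_) hy hlogK
  obtain ⟨x, hx1, hx2⟩ := hpe ε₁ hε₁ (Metric.ball p r) (Metric.ball_mem_nhds p hr)
  exact ⟨φ x, ⟨x, rfl⟩, hx2, by rw [hgl]; exact hu0 x hx1⟩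

/-- points at a given distance -/
theorem exists_at_dist {Y : Type} [MetricSpace Y] {E : Set Y} (hE : IsPreconnected E) {a e : Y}
    (he : e ∈ E) {ρ : ℝ} (hea : dist e a ≤ ρ) (hd : ENNReal.ofReal (2 * ρ) < Metric.ediam E) :
    ∃ e' ∈ E, dist e' a = ρ := by
  obtain ⟨e'', he'', h1⟩ : ∃ e'' ∈ E, ρ ≤ dist e'' a := by
    by_contra hcon
    push Not at hcon
    refine absurd hd (not_lt.2 (Metric.ediam_le fun x hx y hy => ?_))
    rw [edist_dist]
    refine ENNReal.ofReal_le_ofReal ?_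
    have h1 := hcon x hx
    have h2 := hcon y hy
    have h3 := dist_triangle x a y
    rw [dist_comm a y] at h3
    linarith
  obtain ⟨e', he', h2⟩ := hE.intermediate_value he he'' (f := fun x => dist x a)
    (continuous_id.dist continuous_const).continuousOn ⟨hea, h1⟩
  exact ⟨e', he', h2⟩

/-- **Theorem.** -/
theorem separated {lam : ℝ} (hlam : 1 ≤ lam) (hX : HomeoSphereDomain X) (h : IsALLC X lam)
    (hc : ProperSpace (Completion X)) {E F : Set (Completion X)}
    (hE : IsNontrivialBoundaryComponent E) (hF : IsNontrivialBoundaryComponent F) (hne : E ≠ F)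
    (hEF : Bornology.IsBounded E ∨ Bornology.IsBounded F) :
    ENNReal.ofReal (1 / (1156 * lam ^ 4)) ≤ relDist E F := by
  have hl0 : 0 < lam := by linarith
  have hEp : IsPreconnected E := by
    obtain ⟨_, x, hx, rfl⟩ := hE
    exact isPreconnected_connectedComponentIn
  have hFp : IsPreconnected F := by
    obtain ⟨_, x, hx, rfl⟩ := hF
    exact isPreconnected_connectedComponentIn
  have hdisj : ∀ z, z ∈ E → z ∉ F := by
    intro z hzE hzF
    obtain ⟨_, x, hx, rfl⟩ := hE
    obtain ⟨_, y, hy, rfl⟩ := hF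
    exact hne ((connectedComponentIn_eq hzE).trans (connectedComponentIn_eq hzF).symm)
  have hd0 : min (Metric.ediam E) (Metric.ediam F) ≠ 0 := by
    have h1 := Metric.ediam_pos_iff.2 hE.1
    have h2 := Metric.ediam_pos_iff.2 hF.1
    exact (lt_min h1 h2).ne'
  have hdt : min (Metric.ediam E) (Metric.ediam F) ≠ ∞ := by
    rcases hEF with h | h
    · exact ((min_le_left _ _).trans_lt (lt_top_iff_ne_top.2 h.ediam_ne_top)).ne
    · exact ((min_le_right _ _).trans_lt (lt_top_iff_ne_top.2 h.ediam_ne_top)).ne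
  rw [relDist, ENNReal.le_div_iff_mul_le (Or.inl hd0) (Or.inl hdt)]
  refine le_iInf₂ fun a ha => le_iInf₂ fun b hb => ?_
  by_contra hcon
  push Not at hcon
  have hs : 0 < dist a b := by
    rw [dist_pos]
    rintro rfl
    exact hdisj a ha hb
  -- the diameters are large
  have hbig : ENNReal.ofReal (1156 * lam ^ 4 * dist a b) <
      min (Metric.ediam E) (Metric.ediam F) := by
    have h1 : ENNReal.ofReal (1156 * lam ^ 4) * edist a b <
        ENNReal.ofReal (1156 * lam ^ 4) * (ENNReal.ofReal (1 / (1156 * lam ^ 4)) *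
          min (Metric.ediam E) (Metric.ediam F)) := by
      refine (ENNReal.mul_lt_mul_iff_right ?_ ENNReal.ofReal_ne_top).2 hcon
      exact (ENNReal.ofReal_pos.2 (by positivity)).ne'
    rw [← mul_assoc, ← ENNReal.ofReal_mul (by positivity), mul_one_div_cancel (by positivity),
      ENNReal.ofReal_one, one_mul, edist_dist, ← ENNReal.ofReal_mul (by positivity)] at h1
    exact h1
  have hE2 := hbig.trans_le (min_le_left _ _)
  have hF2 := hbig.trans_le (min_le_right _ _)
  have hl4 : 1 ≤ lam ^ 4 := one_le_pow₀ hlam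
  have e1 : 2 * (289 * lam ^ 4 * (2 * dist a b)) = 1156 * lam ^ 4 * dist a b := by ring
  have hsm : ∀ G : Set (Completion X), ENNReal.ofReal (1156 * lam ^ 4 * dist a b) <
      Metric.ediam G → ENNReal.ofReal (2 * (2 * dist a b)) < Metric.ediam G := by
    intro G hG
    refine lt_of_le_of_lt (ENNReal.ofReal_le_ofReal ?_) hG
    nlinarith
  have hbd : dist b a ≤ 2 * dist a b := by
    rw [dist_comm b a]
    linarith
  have hbd2 : dist b a ≤ 289 * lam ^ 4 * (2 * dist a b) := by
    rw [dist_comm b a]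
    nlinarith
  obtain ⟨e₀, he₀, h1⟩ := exists_at_dist hEp ha (a := a) (ρ := 2 * dist a b)
    (by rw [dist_self]; linarith) (hsm E hE2)
  obtain ⟨f₀, hf₀, h2⟩ := exists_at_dist hFp hb (a := a) (ρ := 2 * dist a b) hbd (hsm F hF2)
  obtain ⟨e₂, he₂, h3⟩ := exists_at_dist hEp ha (a := a) (ρ := 289 * lam ^ 4 * (2 * dist a b))
    (by rw [dist_self]; positivity) (by rw [e1]; exact hE2)
  obtain ⟨f₂, hf₂, h4⟩ := exists_at_dist hFp hb (a := a) (ρ := 289 * lam ^ 4 * (2 * dist a b))
    hbd2 (by rw [e1]; exact hF2)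
  exact main_arg hlam hX h hc hE.2 hF.2 hne hEF (a := a) (ρ := 2 * dist a b) (by linarith)
    he₀ hf₀ he₂ hf₂ h1 h2 h3 h4

end Pool.Agent.ALLC.Comp
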