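import Pool.Agent.Helper98_ALLC.Conn

/-!
# Embeddings in the plane; separation of boundary components
-/

set_option autoImplicit false

open Set Metric UniformSpace Topology Filter

namespace Pool.Agent.ALLC.Comp

variable {X : Type} [MetricSpace X]

/-- the metric boundary of a locally compact space is closed in the completion -/
theorem isClosed_metricBoundary [LocallyCompactSpace X] : IsClosed (metricBoundary X) := by
  rw [metricBoundary, isClosed_compl_iff, isOpen_iff_mem_nhds]
  rintro _ ⟨x, rfl⟩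
  obtain ⟨K, hK, hKx⟩ := exists_compact_mem_nhds x
  obtain ⟨ε, hε, hb⟩ := Metric.mem_nhds_iff.1 hKx
  refine Filter.mem_of_superset (Metric.ball_mem_nhds (x : Completion X) hε) ?_
  intro y hy
  have h1 : IsClosed ((↑) '' K : Set (Completion X)) :=
    (hK.image (Completion.continuous_coe X)).isClosed
  have h2 : y ∈ closure ((↑) '' K : Set (Completion X)) := by
    rw [Metric.mem_closure_iff]
    intro δ hδ
    have hpos : 0 < ε - dist y (x : Completion X) := by
      rw [Metric.mem_ball] at hy
      linarith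
    obtain ⟨z, hz⟩ := exists_near y (lt_min hδ hpos)
    obtain ⟨hz1, hz2⟩ := lt_min_iff.1 hz
    refine ⟨z, ⟨z, hb ?_, rfl⟩, by rwa [dist_comm]⟩
    rw [Metric.mem_ball, ← Completion.dist_eq z x]
    have := dist_triangle (z : Completion X) y x
    linarith
  rw [h1.closure_eq] at h2
  obtain ⟨z, _, rfl⟩ := h2
  exact ⟨z, rfl⟩

/-- cluster points of a map at a point of the completion -/
theorem exists_cluster {Z : Type} [TopologicalSpace Z] {ψ : X → Z} {K : Set Z} (hK : IsCompact K)
    {e : Completion X} {ε₀ : ℝ} (hε₀ : 0 < ε₀)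
    (h : ∀ x : X, dist (x : Completion X) e < ε₀ → ψ x ∈ K) :
    ∃ q ∈ K, ∀ ε > 0, ∀ N ∈ 𝓝 q, ∃ x : X, dist (x : Completion X) e < ε ∧ ψ x ∈ N := by
  have hne : (comap ((↑) : X → Completion X) (𝓝 e)).NeBot :=
    Completion.isDenseInducing_coe.comap_nhds_neBot e
  have hball : ∀ ε > 0, {x : X | dist (x : Completion X) e < ε} ∈
      comap ((↑) : X → Completion X) (𝓝 e) := fun ε hε =>
    ⟨Metric.ball e ε, Metric.ball_mem_nhds e hε, fun x hx => hx⟩
  have hle : map ψ (comap ((↑) : X → Completion X) (𝓝 e)) ≤ 𝓟 K := by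
    rw [le_principal_iff, mem_map]
    exact Filter.mem_of_superset (hball ε₀ hε₀) h
  obtain ⟨q, hq, hcl⟩ := hK.exists_clusterPt hle
  refine ⟨q, hq, fun ε hε N hN => ?_⟩
  obtain ⟨z, hz1, x, hx, rfl⟩ := clusterPt_iff_nonempty.1 hcl hN
    (image_mem_map (hball ε hε))
  exact ⟨x, hx, hz1⟩

/-- cluster points at the boundary are not values -/
theorem cluster_not_mem {Z : Type} [TopologicalSpace Z] {ψ : X → Z} (hψ : IsOpenEmbedding ψ)
    {e : Completion X} (he : e ∈ metricBoundary X) {q : Z}
    (hq : ∀ ε > 0, ∀ N ∈ 𝓝 q, ∃ x : X, dist (x : Completion X) e < ε ∧ ψ x ∈ N) :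
    q ∉ range ψ := by
  rintro ⟨x₀, rfl⟩
  have hpos : 0 < dist (x₀ : Completion X) e := by
    rw [dist_pos]
    rintro rfl
    exact he ⟨x₀, rfl⟩
  have hN : ψ '' Metric.ball x₀ (dist (x₀ : Completion X) e / 2) ∈ 𝓝 (ψ x₀) :=
    hψ.isOpenMap.image_mem_nhds (Metric.ball_mem_nhds x₀ (by linarith))
  obtain ⟨x, hx1, x', hx', hxx⟩ := hq _ (half_pos hpos) _ hN
  rw [hψ.injective hxx, Metric.mem_ball, ← Completion.dist_eq x x₀] at hx'
  have := dist_triangle (x₀ : Completion X) x e
  rw [dist_comm (x₀ : Completion X) (x : Completion X)] at this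
  linarith

/-- `X` can be embedded in the plane such that a given boundary point is sent to infinity -/
theorem exists_embedding (hX : HomeoSphereDomain X) {f : Completion X}
    (hf : f ∈ metricBoundary X) :
    ∃ φ : X → ℂ, IsOpenEmbedding φ ∧
      ∀ ε > 0, ∀ R : ℝ, ∃ y : X, dist (y : Completion X) f < ε ∧ R < ‖φ y‖ := by
  obtain ⟨U, hU, -, ⟨φ₀⟩⟩ := hX
  set ψ : X → sphere (0 : EuclideanSpace ℝ (Fin 3)) 1 := fun x => (φ₀ x).1 with hψd
  have hψ : IsOpenEmbedding ψ := hU.isOpenEmbedding_subtypeVal.comp φ₀.isOpenEmbedding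
  obtain ⟨q, -, hq⟩ := exists_cluster (ψ := ψ) isCompact_univ (e := f) one_pos
    (fun x _ => mem_univ _)
  have hqr : q ∉ range ψ := cluster_not_mem hψ hf hq
  have : Fact (Module.finrank ℝ (EuclideanSpace ℝ (Fin 3)) = 2 + 1) := ⟨by simp⟩
  set st := stereographic' 2 q with hst
  have hsrc : st.source = {q}ᶜ := stereographic'_source q
  have htgt : st.target = univ := stereographic'_target q
  have hψs : ∀ x, ψ x ∈ st.source := by
    intro x
    rw [hsrc]
    rintro rfl
    exact hqr ⟨x, rfl⟩
  set L : EuclideanSpace ℝ (Fin 2) ≃ₗᵢ[ℝ] ℂ := Complex.orthonormalBasisOneI.repr.symm with hL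
  have hφ1 : IsOpenEmbedding fun x => st (ψ x) := by
    refine IsOpenEmbedding.of_continuous_injective_isOpenMap ?_ ?_ ?_
    · exact st.continuousOn.comp_continuous hψ.continuous hψs
    · intro x y hxy
      exact hψ.injective (st.injOn (hψs x) (hψs y) hxy)
    · intro W hW
      have h1 : IsOpen (ψ '' W) := hψ.isOpenMap W hW
      have h2 := st.isOpen_image_of_subset_source h1 (by rintro _ ⟨x, _, rfl⟩; exact hψs x)
      rw [image_image] at h2
      exact h2
  refine ⟨fun x => L (st (ψ x)), L.toHomeomorph.isOpenEmbedding.comp hφ1, fun ε hε R => ?_⟩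
  have hN : (st.symm '' closedBall 0 R)ᶜ ∈ 𝓝 q := by
    have h1 : IsCompact (st.symm '' closedBall 0 R) := by
      refine (isCompact_closedBall 0 R).image_of_continuousOn (st.symm.continuousOn.mono ?_)
      intro x _
      rw [st.symm_source, htgt]
      exact mem_univ x
    refine h1.isClosed.isOpen_compl.mem_nhds ?_
    rintro ⟨x, _, hx⟩
    have h2 : st.symm x ∈ st.source := st.map_target (by rw [htgt]; exact mem_univ x)
    rw [hx, hsrc] at h2
    exact h2 rfl
  obtain ⟨y, hy1, hy2⟩ := hq ε hε _ hN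
  refine ⟨y, hy1, ?_⟩
  rw [L.norm_map]
  by_contra hcon
  push Not at hcon
  exact hy2 ⟨st (ψ y), by rwa [mem_closedBall, dist_zero_right], st.left_inv (hψs y)⟩

/-- local connectedness and local compactness -/
theorem hloc_of_embedding {φ : X → ℂ} (hφ : IsOpenEmbedding φ) (x : X) (W : Set X)
    (hW : W ∈ 𝓝 x) : ∃ V ∈ 𝓝 x, V ⊆ W ∧ IsCompact V ∧ IsPreconnected V := by
  have h1 : φ '' W ∈ 𝓝 (φ x) := hφ.isOpenMap.image_mem_nhds hW
  obtain ⟨r, hr, hb⟩ := Metric.nhds_basis_closedBall.mem_iff.1 h1
  have hr2 : closedBall (φ x) r ⊆ range φ := hb.trans (image_subset_range _ _)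
  have himg : φ '' (φ ⁻¹' closedBall (φ x) r) = closedBall (φ x) r := by
    rw [image_preimage_eq_iff]
    exact hr2
  refine ⟨φ ⁻¹' closedBall (φ x) r, hφ.continuous.continuousAt.preimage_mem_nhds
    (closedBall_mem_nhds _ hr), ?_, ?_, ?_⟩
  · intro y hy
    obtain ⟨w, hw, hwy⟩ := hb hy
    rwa [← hφ.injective hwy]
  · rw [hφ.isInducing.isCompact_iff, himg]
    exact isCompact_closedBall _ _
  · rw [← hφ.isInducing.isPreconnected_image, himg]
    exact (convex_closedBall _ _).isPreconnected

/-- A compact component of the closed boundary has arbitrarily small neighbourhoods which are open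
and closed in the boundary. -/
theorem exists_clopen [ProperSpace (Completion X)] (hcl : IsClosed (metricBoundary X))
    {E : Set (Completion X)}
    (hE : ∃ x ∈ metricBoundary X, E = connectedComponentIn (metricBoundary X) x)
    (hEb : Bornology.IsBounded E) {W : Set (Completion X)} (hW : IsOpen W) (hEW : E ⊆ W) :
    ∃ P : Set (Completion X), IsCompact P ∧ IsClosed (metricBoundary X \ P) ∧ E ⊆ P ∧ P ⊆ W ∧
      P ⊆ metricBoundary X := by
  obtain ⟨x, hx, rfl⟩ := hE
  set B := metricBoundary X with hB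
  set E := connectedComponentIn B x with hEd
  have hxE : x ∈ E := mem_connectedComponentIn hx
  have hEB : E ⊆ B := connectedComponentIn_subset _ _
  -- a ball containing `E`
  obtain ⟨R, hR⟩ := hEb.subset_ball x
  set N : Set (Completion X) := closedBall x R ∩ B with hN
  have hNc : IsCompact N := (isCompact_closedBall x R).inter_right hcl
  have hEN : E ⊆ N := fun y hy => ⟨ball_subset_closedBall (hR hy), hEB hy⟩
  have hxN : x ∈ N := hEN hxE
  have hEeq : connectedComponentIn N x = E := by
    refine Subset.antisymm ?_ ?_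
    · exact isPreconnected_connectedComponentIn.subset_connectedComponentIn
        (mem_connectedComponentIn hxN) ((connectedComponentIn_subset _ _).trans inter_subset_right)
    · exact isPreconnected_connectedComponentIn.subset_connectedComponentIn hxE hEN
  have : CompactSpace N := isCompact_iff_compactSpace.1 hNc
  -- the open set which has to contain the neighbourhood
  set O : Set N := {y | (y : Completion X) ∈ W ∩ Metric.ball x R} with hO
  have hOo : IsOpen O := (hW.inter isOpen_ball).preimage continuous_subtype_val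
  have hsub : (⋂ s : {s : Set N // IsClopen s ∧ (⟨x, hxN⟩ : N) ∈ s}, (s : Set N)) ⊆ O := by
    rw [← connectedComponent_eq_iInter_isClopen]
    intro y hy
    have h1 : (y : Completion X) ∈ connectedComponentIn N x := by
      rw [connectedComponentIn_eq_image hxN]
      exact ⟨y, hy, rfl⟩
    rw [hEeq] at h1
    exact ⟨hEW h1, hR h1⟩
  obtain ⟨t, ht⟩ := hOo.isClosed_compl.isCompact.elim_finite_subfamily_closed
    (fun s : {s : Set N // IsClopen s ∧ (⟨x, hxN⟩ : N) ∈ s} => (s : Set N))
    (fun s => s.2.1.isClosed) (by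
      rw [← disjoint_iff_inter_eq_empty]
      exact disjoint_compl_left.mono_right hsub)
  set s : Set N := ⋂ i ∈ t, (i : Set N) with hs
  have hsc : IsClopen s := isClopen_biInter_finset fun i _ => i.2.1
  have hxs : (⟨x, hxN⟩ : N) ∈ s := mem_iInter₂.2 fun i _ => i.2.2
  have hsO : s ⊆ O := by
    intro y hy
    by_contra hcon
    have : y ∈ Oᶜ ∩ s := ⟨hcon, hy⟩
    rw [ht] at this
    exact this
  refine ⟨(↑) '' s, hsc.isClosed.isCompact.image continuous_subtype_val, ?_, ?_, ?_, ?_⟩
  · -- the rest of the boundary is closed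
    have h1 : IsClosed ((↑) '' sᶜ : Set (Completion X)) :=
      (hsc.compl.isClosed.isCompact.image continuous_subtype_val).isClosed
    have h2 : IsClosed (B \ Metric.ball x R) := hcl.sdiff isOpen_ball
    have : B \ ((↑) '' s) = ((↑) '' sᶜ) ∪ B \ Metric.ball x R := by
      ext y
      constructor
      · rintro ⟨h3, h4⟩
        by_cases h5 : y ∈ Metric.ball x R
        · left
          exact ⟨⟨y, ball_subset_closedBall h5, h3⟩, fun h6 => h4 ⟨_, h6, rfl⟩, rfl⟩
        · exact Or.inr ⟨h3, h5⟩
      · rintro (⟨z, h3, rfl⟩ | ⟨h3, h4⟩)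
        · refine ⟨z.2.2, ?_⟩
          rintro ⟨z', h4, h5⟩
          rw [Subtype.ext h5] at h4
          exact h3 h4
        · refine ⟨h3, ?_⟩
          rintro ⟨z', h5, rfl⟩
          exact h4 (hsO h5).2
    rw [this]
    exact h1.union h2
  · intro y hy
    rw [← hEeq, connectedComponentIn_eq_image hxN] at hy
    obtain ⟨z, hz, rfl⟩ := hy
    exact ⟨z, hsc.connectedComponent_subset hxs hz, rfl⟩
  · rintro _ ⟨z, hz, rfl⟩
    exact (hsO hz).1
  · rintro _ ⟨z, hz, rfl⟩
    exact z.2.2

/-- A bounded boundary component can be separated from another one by a function -/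
theorem exists_sep₁ [ProperSpace (Completion X)] (hcl : IsClosed (metricBoundary X))
    {E F : Set (Completion X)}
    (hE : ∃ x ∈ metricBoundary X, E = connectedComponentIn (metricBoundary X) x)
    (hF : ∃ x ∈ metricBoundary X, F = connectedComponentIn (metricBoundary X) x) (hne : E ≠ F)
    (hEb : Bornology.IsBounded E) :
    ∃ (u : X → ℝ) (K : Set X), Continuous u ∧ IsCompact K ∧ (∀ x ∉ K, u x = 0 ∨ u x = 1) ∧
      (∀ e ∈ E, ∃ ε > 0, ∀ x : X, dist (x : Completion X) e < ε → u x = 0) ∧
      ∀ e ∈ F, ∃ ε > 0, ∀ x : X, dist (x : Completion X) e < ε → u x = 1 := by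
  have hFcl : IsClosed F := by
    obtain ⟨y, hy, rfl⟩ := hF
    refine isClosed_of_closure_subset ?_
    exact isPreconnected_connectedComponentIn.closure.subset_connectedComponentIn
      (subset_closure (mem_connectedComponentIn hy))
      (closure_minimal (connectedComponentIn_subset _ _) hcl)
  have hFB : F ⊆ metricBoundary X := by
    obtain ⟨y, hy, rfl⟩ := hF
    exact connectedComponentIn_subset _ _
  have hEF : E ⊆ Fᶜ := by
    obtain ⟨x, hx, rfl⟩ := hE
    obtain ⟨y, hy, rfl⟩ := hF
    intro z hz1 hz2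
    exact hne ((connectedComponentIn_eq hz1).trans (connectedComponentIn_eq hz2).symm)
  set B := metricBoundary X with hB
  obtain ⟨x₀, hx₀, -⟩ := id hE
  obtain ⟨R, hR⟩ := hEb.subset_ball x₀
  obtain ⟨P, hPc, hQc, hEP, hPW, hPB⟩ := exists_clopen hcl hE hEb
    (hFcl.isOpen_compl.inter (Metric.isOpen_ball (x := x₀) (ε := R))) (subset_inter hEF hR)
  have hPQ : Disjoint P ((B \ P) ∪ (Metric.ball x₀ R)ᶜ) := by
    rw [Set.disjoint_left]
    rintro z hz (h | h)
    · exact h.2 hz
    · exact h (hPW hz).2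
  obtain ⟨f, hf0, hf1, hf⟩ := exists_continuous_zero_one_of_isClosed hPc.isClosed
    (hQc.union isOpen_ball.isClosed_compl) hPQ
  have hEP' : ∀ e ∈ E, f e = 0 := fun e he => hf0 (hEP he)
  have hFQ : ∀ e ∈ F, f e = 1 := fun e he =>
    hf1 (Or.inl ⟨hFB he, fun h => (hPW h).1 he⟩)
  have hBf : ∀ e ∈ B, f e = 0 ∨ f e = 1 := by
    intro e he
    by_cases h : e ∈ P
    · exact Or.inl (hf0 h)
    · exact Or.inr (hf1 (Or.inl ⟨he, h⟩))
  have hcoe : Continuous fun x : X => f (x : Completion X) :=
    f.continuous.comp (Completion.continuous_coe X)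
  refine ⟨fun x => max 0 (min 1 (3 * f (x : Completion X) - 1)),
    {x | 1 / 3 ≤ f (x : Completion X) ∧ f (x : Completion X) ≤ 2 / 3}, ?_, ?_, ?_, ?_, ?_⟩
  · fun_prop
  · rw [(Completion.isUniformEmbedding_coe X).isEmbedding.isCompact_iff]
    have : ((↑) '' {x : X | 1 / 3 ≤ f (x : Completion X) ∧ f (x : Completion X) ≤ 2 / 3} :
        Set (Completion X)) = {y | 1 / 3 ≤ f y ∧ f y ≤ 2 / 3} := by
      ext y
      constructor
      · rintro ⟨x, hx, rfl⟩
        exact hx
      · rintro hy
        obtain ⟨h1, h2⟩ := hy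
        have hyB : y ∉ B := by
          intro h
          rcases hBf y h with h | h <;> rw [h] at h1 h2 <;> linarith
        rw [hB, metricBoundary, notMem_compl_iff] at hyB
        obtain ⟨x, rfl⟩ := hyB
        exact ⟨x, ⟨h1, h2⟩, rfl⟩
    rw [this]
    refine (isCompact_closedBall x₀ R).of_isClosed_subset
      ((isClosed_le continuous_const f.continuous).inter
      (isClosed_le f.continuous continuous_const)) ?_
    rintro y ⟨h1, h2⟩
    refine ball_subset_closedBall ?_
    by_contra hcon
    have h3 : f y = 1 := hf1 (Or.inr hcon)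
    rw [h3] at h2
    norm_num at h2
  · intro x hx
    simp only [mem_ofPred_eq, not_and_or, not_le] at hx
    rcases hx with h | h
    · left
      simp only
      rw [max_eq_left]
      exact (min_le_right _ _).trans (by linarith)
    · right
      simp only
      rw [min_eq_left (by linarith), max_eq_right (by norm_num)]
  · intro e he
    have h1 : ∀ᶠ y in 𝓝 e, f y < 1 / 3 :=
      f.continuous.continuousAt.eventually_lt_const (by rw [hEP' e he]; norm_num)
    obtain ⟨ε, hε, hb⟩ := Metric.eventually_nhds_iff.1 h1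
    refine ⟨ε, hε, fun x hx => ?_⟩
    have h2 := hb hx
    simp only
    rw [max_eq_left]
    exact (min_le_right _ _).trans (by linarith)
  · intro e he
    have h1 : ∀ᶠ y in 𝓝 e, 2 / 3 < f y :=
      f.continuous.continuousAt.eventually_const_lt (by rw [hFQ e he]; norm_num)
    obtain ⟨ε, hε, hb⟩ := Metric.eventually_nhds_iff.1 h1
    refine ⟨ε, hε, fun x hx => ?_⟩
    have h2 := hb hx
    simp only
    rw [min_eq_left (by linarith), max_eq_right (by norm_num)]

/-- Two distinct boundary components one of which is bounded can be separated by a function -/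
theorem exists_sep [ProperSpace (Completion X)] (hcl : IsClosed (metricBoundary X))
    {E F : Set (Completion X)}
    (hE : ∃ x ∈ metricBoundary X, E = connectedComponentIn (metricBoundary X) x)
    (hF : ∃ x ∈ metricBoundary X, F = connectedComponentIn (metricBoundary X) x) (hne : E ≠ F)
    (hEF : Bornology.IsBounded E ∨ Bornology.IsBounded F) :
    ∃ (u : X → ℝ) (K : Set X), Continuous u ∧ IsCompact K ∧ (∀ x ∉ K, u x = 0 ∨ u x = 1) ∧
      (∀ e ∈ E, ∃ ε > 0, ∀ x : X, dist (x : Completion X) e < ε → u x = 0) ∧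
      ∀ e ∈ F, ∃ ε > 0, ∀ x : X, dist (x : Completion X) e < ε → u x = 1 := by
  rcases hEF with h | h
  · exact exists_sep₁ hcl hE hF hne h
  · obtain ⟨u, K, hu, hK, h1, h2, h3⟩ := exists_sep₁ hcl hF hE hne.symm h
    refine ⟨fun x => 1 - u x, K, continuous_const.sub hu, hK, fun x hx => ?_, fun e he => ?_,
      fun e he => ?_⟩
    · rcases h1 x hx with h | h
      · right
        simp only [h, sub_zero]
      · left
        simp only [h, sub_self]
    · obtain ⟨ε, hε, h⟩ := h3 e he
      exact ⟨ε, hε, fun x hx => by simp only [h x hx, sub_self]⟩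
    · obtain ⟨ε, hε, h⟩ := h2 e he
      exact ⟨ε, hε, fun x hx => by simp only [h x hx, sub_zero]⟩

end Pool.Agent.ALLC.Comp
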